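import Pool.Agent.helper70.FI4.SpecK

/-!
# Project fi4 (MP_baa4d7_al), row `fk:KUN`: sum over several blocks
-/

set_option autoImplicit false

namespace Pool.Agent.FI4

open Pool.Agent.helper58.DC Pool.Agent.DI Pool.Agent.GR Pool.Agent.OB Pool.Agent.DR Pool.Agent.FI Pool.Agent.FI3

theorem KUN_bc (hBCL : BCL_stmt) {G : Type} [Group G] [Finite G] (M : Ideal (integralClosure ℤ ℂ))
    (X : Set (G → ℂ)) (N : Subgroup G) : BC M N (BX M X N) where
  sub := fun _ h => h.1
  closed := by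
    rintro ψ ⟨h1, χ', hχ', h2⟩ ψ' hψ' h
    have h3 := (hBCL G M χ' N).closed ψ ⟨h1, h2⟩ ψ' hψ' h
    exact ⟨hψ', χ', hχ', h3.2⟩

theorem KUN (hLBN : LBN_stmt) (hBCL : BCL_stmt) (hIM : IM_stmt) (hB2 : B2_stmt) : KUN_stmt := by
  intro p M hM G _ _ 𝒞 n X hX hcl hdiv
  refine ⟨fun N => KUN_bc hBCL M X N, ?_⟩
  have hrefl : ∀ ψ : G → ℂ, Induces M ψ ψ := fun ψ => (hIM G M ψ ψ ψ).1
  have hsymm : ∀ ψ φ : G → ℂ, Induces M ψ φ → Induces M φ ψ := fun ψ φ => (hIM G M ψ φ ψ).2.1
  have htrans : ∀ ψ φ θ : G → ℂ, Induces M ψ φ → Induces M φ θ → Induces M ψ θ :=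
    fun ψ φ θ => (hIM G M ψ φ θ).2.2.1
  have hIrr : (Irr G).Finite := by
    refine (hB2 G (⊤ : Subgroup G)).1.subset ?_
    intro χ hχ
    exact IrrOn_top.2 hχ
  have h𝒞 : 𝒞.Finite := Set.toFinite _
  have key : ∀ k : ℕ, ∀ X : Set (G → ℂ), X ⊆ Irr G → X.ncard = k →
      (∀ χ' ∈ X, ∀ χ'' ∈ Irr G, Induces M χ'' χ' → χ'' ∈ X) →
      (∀ χ' ∈ X, n ∣ ∑ᶠ C ∈ 𝒞, (-1) ^ (C.card + 1) * ((Nat.card (nrm C) : ℤ) * (lb p M χ' (nrm C) : ℤ))) →
      n ∣ ∑ᶠ C ∈ 𝒞, (-1) ^ (C.card + 1) * ((Nat.card (nrm C) : ℤ) * (ls p (nrm C) (BX M X (nrm C)) : ℤ)) := by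
    intro k
    induction k using Nat.strong_induction_on with
    | _ k ih =>
      intro X hX hk hcl hdiv
      rcases X.eq_empty_or_nonempty with hX0 | ⟨χ₀, hχ₀⟩
      · have h0 : ∀ N : Subgroup G, ls p N (BX M X N) = 0 := by
          intro N
          have h1 : BX M X N = ∅ := by
            ext f
            constructor
            · rintro ⟨-, χ', hχ', -⟩
              rw [hX0] at hχ'
              exact hχ'.elim
            · intro h
              exact h.elim
          rw [h1]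
          unfold ls
          rw [finsum_mem_empty]
          simp
        have h2 : ∑ᶠ C ∈ 𝒞, (-1) ^ (C.card + 1) * ((Nat.card (nrm C) : ℤ) * (ls p (nrm C) (BX M X (nrm C)) : ℤ)) = 0 := by
          refine finsum_mem_eq_zero_of_forall_eq_zero fun C _ => ?_
          rw [h0]
          simp
        rw [h2]
        exact dvd_zero n
      · obtain ⟨X', hX'⟩ : ∃ X' : Set (G → ℂ), X' = {χ' | χ' ∈ X ∧ ¬ Induces M χ' χ₀} := ⟨_, rfl⟩
        have hsub : X' ⊆ X := by
          rw [hX']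
          exact fun _ h => h.1
        have hχ₀' : χ₀ ∉ X' := by
          rw [hX']
          exact fun h => h.2 (hrefl χ₀)
        have hlt : X'.ncard < k := by
          rw [← hk]
          refine Set.ncard_lt_ncard ⟨hsub, fun h => hχ₀' (h hχ₀)⟩ (hIrr.subset hX)
        have ih' := ih X'.ncard hlt X' (hsub.trans hX) rfl
          (by
            intro χ' hχ' χ'' hχ'' hi
            rw [hX'] at hχ' ⊢
            exact ⟨hcl χ' hχ'.1 χ'' hχ'' hi, fun h => hχ'.2 (htrans _ _ _ (hsymm _ _ hi) h)⟩)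
          (fun χ' hχ' => hdiv χ' (hsub hχ'))
        have hls : ∀ N : Subgroup G, (ls p N (BX M X N) : ℤ) = (lb p M χ₀ N : ℤ) + (ls p N (BX M X' N) : ℤ) := by
          intro N
          obtain ⟨L1, L2⟩ := hLBN p M hM G N
          have hfin : ∀ Y : Set (G → ℂ), (BX M Y N).Finite := fun Y => (hB2 G N).1.subset fun _ h => h.1
          have hfinB : (Blk M χ₀ N).Finite := (hB2 G N).1.subset fun _ h => h.1
          have hun : BX M X N = Blk M χ₀ N ∪ BX M X' N := by
            ext f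
            constructor
            · rintro ⟨h1, χ', hχ', h2⟩
              by_cases h3 : Induces M χ' χ₀
              · exact Or.inl ⟨h1, htrans _ _ _ h2 h3⟩
              · refine Or.inr ⟨h1, χ', ?_, h2⟩
                rw [hX']
                exact ⟨hχ', h3⟩
            · rintro (⟨h1, h2⟩ | ⟨h1, χ', hχ', h2⟩)
              · exact ⟨h1, χ₀, hχ₀, h2⟩
              · exact ⟨h1, χ', hsub hχ', h2⟩
          have hdis : Disjoint (Blk M χ₀ N) (BX M X' N) := by
            rw [Set.disjoint_left]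
            rintro f ⟨h1, h2⟩ ⟨-, χ', hχ', h3⟩
            rw [hX'] at hχ'
            exact hχ'.2 (htrans _ _ _ (hsymm _ _ h3) h2)
          have e1 := (L1 (BX M X N) (KUN_bc hBCL M X N)).1
          have e2 := (L1 (BX M X' N) (KUN_bc hBCL M X' N)).1
          have e3 := (L2 χ₀).2.1
          have e4 : (ls p N (BX M X N) : ℂ) = (lb p M χ₀ N : ℂ) + (ls p N (BX M X' N) : ℂ) := by
            rw [e1, e2, e3, hun, finsum_mem_union hdis hfinB (hfin X')]
          have e5 : ls p N (BX M X N) = lb p M χ₀ N + ls p N (BX M X' N) := by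
            exact_mod_cast e4
          rw [e5]
          push_cast
          ring
        have hsum : ∑ᶠ C ∈ 𝒞, (-1) ^ (C.card + 1) * ((Nat.card (nrm C) : ℤ) * (ls p (nrm C) (BX M X (nrm C)) : ℤ)) =
            ∑ᶠ C ∈ 𝒞, (-1) ^ (C.card + 1) * ((Nat.card (nrm C) : ℤ) * (lb p M χ₀ (nrm C) : ℤ)) +
            ∑ᶠ C ∈ 𝒞, (-1) ^ (C.card + 1) * ((Nat.card (nrm C) : ℤ) * (ls p (nrm C) (BX M X' (nrm C)) : ℤ)) := by
          rw [← finsum_mem_add_distrib h𝒞]
          refine finsum_mem_congr rfl fun C _ => ?_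
          rw [hls (nrm C)]
          ring
        rw [hsum]
        exact dvd_add (hdiv χ₀ hχ₀) ih'
  exact key X.ncard X hX rfl hcl hdiv

end Pool.Agent.FI4
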